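import Pool.Agent.Helper733.Chain

/-!
# Face contents of subcomplexes: the main inequality

An adaptation of `Pool.Agent.Helper733.Main.main_real` to arbitrary families of faces.
-/

set_option autoImplicit false

namespace Pool.Agent.Y949.FC

open scoped BigOperators RealInnerProductSpace MeasureTheory
open MeasureTheory Module Measure
open Pool.Agent.Helper733 Pool.Agent.Helper733.Main

noncomputable section

variable {E : Type*} [NormedAddCommGroup E] [InnerProductSpace ℝ E] [FiniteDimensional ℝ E]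
  [MeasurableSpace E] [BorelSpace E]

open Classical in
/-- The inequality for an arbitrary family `Fs` of `(k+1)`-faces and their `k`-faces. -/
theorem main_real (S : Finset E) (k : ℕ) (hk : 1 ≤ k)
    {J L : Type*} [Fintype J] [Fintype L] [Nonempty J]
    (Fs : J → Set E) (Gs : L → Set E) (hFinj : Function.Injective Fs) (hGinj : Function.Injective Gs)
    (hFprop : ∀ F, (Fs F).Nonempty ∧ IsExposed ℝ (convexHull ℝ (S : Set E)) (Fs F) ∧
      finrank ℝ (vectorSpan ℝ (Fs F)) = k + 1)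
    (hGall : ∀ G : Set E, (G.Nonempty ∧ IsExposed ℝ (convexHull ℝ (S : Set E)) G ∧
      finrank ℝ (vectorSpan ℝ G) = k) ↔ G ∈ Set.range Gs) :
    (∑ F, ((μHE[k + 1] : Measure E) (Fs F)).toReal) ^ (((k + 1 : ℕ) : ℝ)⁻¹) ≤
      (((k + 1 : ℕ) : ℝ) * (2 * ((k + 1 + 1 : ℕ) : ℝ) ^ 2 *
        ∑ G, if ∃ F, Gs G ⊆ Fs F then ((μHE[k] : Measure E) (Gs G)).toReal else 0)) ^
          ((k : ℝ)⁻¹) := by
  set P := convexHull ℝ (S : Set E) with hP
  have hGprop : ∀ G, (Gs G).Nonempty ∧ IsExposed ℝ P (Gs G) ∧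
      finrank ℝ (vectorSpan ℝ (Gs G)) = k := fun G => (hGall (Gs G)).mpr ⟨G, rfl⟩
  -- the common complement
  obtain ⟨F0⟩ := ‹Nonempty J›
  have hJne : Nonempty J := ⟨F0⟩
  have hdE : k + 1 ≤ finrank ℝ E := by
    rw [← (hFprop F0).2.2]
    exact Submodule.finrank_le _
  set r := finrank ℝ E - (k + 1) with hr
  have hZr : ∀ F, finrank ℝ (Zs (Fs F)) = r := by
    intro F
    have h1 := finrank_Zs (Fs F) (hFprop F).1
    rw [(hFprop F).2.2] at h1
    omega
  have hAr : finrank ℝ ((E →ₗ[ℝ] ℝ) × ℝ) = (k + 1 + 1) + r := by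
    rw [finrank_A]; omega
  obtain ⟨Q, hQ, hQZ⟩ := Compl.common_complement (k + 1 + 1) r hAr (fun F => Zs (Fs F)) hZr
  have hsup : ∀ F, Q ⊔ Zs (Fs F) = ⊤ := by
    intro F
    apply Submodule.eq_top_of_finrank_eq
    have h1 := Submodule.finrank_sup_add_finrank_inf_eq Q (Zs (Fs F))
    rw [hQZ F, finrank_bot, hQ, hZr F] at h1
    omega
  -- the generic affine function
  obtain ⟨ψ, hψ⟩ := Compl.exists_notMem (ι := {p : J × J // p.1 ≠ p.2})
    (fun p => Q ⊔ (Zs (Fs p.1.1) ⊓ Zs (Fs p.1.2))) (by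
      intro p htop
      have hne : Zs (Fs p.1.1) ≠ Zs (Fs p.1.2) := by
        intro h
        apply p.2
        apply hFinj
        exact exposed_eq_of_Zs P _ _ (hFprop _).2.1 (hFprop _).1 (hFprop _).2.1 (hFprop _).1 h
      have h1 := Submodule.finrank_sup_add_finrank_inf_eq Q (Zs (Fs p.1.1) ⊓ Zs (Fs p.1.2))
      have h2 : finrank ℝ (Zs (Fs p.1.1) ⊓ Zs (Fs p.1.2) : Submodule ℝ _) < r := by
        rw [← hZr p.1.1]
        apply Submodule.finrank_lt_finrank_of_lt
        refine lt_of_le_of_ne inf_le_left ?_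
        intro h
        apply hne
        have h3 : Zs (Fs p.1.1) ≤ Zs (Fs p.1.2) := inf_eq_left.mp h
        exact Submodule.eq_of_le_of_finrank_eq h3 (by rw [hZr, hZr])
      rw [htop, finrank_top, hAr, hQ] at h1
      omega)
  have hqex : ∀ F : J, ∃ q ∈ Q, ψ - q ∈ Zs (Fs F) := by
    intro F
    have h1 : ψ ∈ Q ⊔ Zs (Fs F) := by rw [hsup F]; trivial
    obtain ⟨q, hq, z, hz, hqz⟩ := Submodule.mem_sup.mp h1
    refine ⟨q, hq, ?_⟩
    rw [← hqz, add_sub_cancel_left]
    exact hz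
  choose q hqQ hqZ using hqex
  have hqne : ∀ F F' : J, q F = q F' → F = F' := by
    intro F F' h
    by_contra hne
    apply hψ ⟨(F, F'), hne⟩
    rw [Submodule.mem_sup]
    refine ⟨q F, hqQ F, ψ - q F, ⟨hqZ F, ?_⟩, by abel⟩
    rw [h]; exact hqZ F'
  -- the directions
  have huex : ∀ G : L, ∃ v ∈ Q, v ∈ Zs (Gs G) ∧ ∀ F : J, Gs G ⊆ Fs F → v ≠ 0 := by
    intro G
    by_cases hex : ∃ F : J, Gs G ⊆ Fs F
    · obtain ⟨F1, hF1⟩ := hex
      obtain ⟨⟨g, hg⟩, hexp, hdim⟩ := hGprop G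
      obtain ⟨l, hl⟩ := hexp ⟨g, hg⟩
      have hgg := hg
      rw [hl] at hgg
      obtain ⟨z, hz, hzG⟩ : ∃ z ∈ Fs F1, z ∉ Gs G := by
        by_contra hcon
        push Not at hcon
        have h2 := Submodule.finrank_mono (vectorSpan_mono ℝ (show Fs F1 ⊆ Gs G from hcon))
        rw [hdim, (hFprop F1).2.2] at h2
        omega
      have hlz : l z ≠ l g := by
        intro h
        apply hzG
        rw [hl]
        refine ⟨(hFprop F1).2.1.subset hz, fun y hy => ?_⟩
        rw [h]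
        exact hgg.2 y hy
      have hbT : (((l : E →ₗ[ℝ] ℝ), -l g) : (E →ₗ[ℝ] ℝ) × ℝ) ∈ Q ⊔ Zs (Fs F1) := by
        rw [hsup F1]; trivial
      obtain ⟨v, hv, z', hz', hvz⟩ := Submodule.mem_sup.mp hbT
      refine ⟨v, hv, ?_, ?_⟩
      · intro x hx
        have h1 := hz' x (hF1 hx)
        have h2 : v = ((l : E →ₗ[ℝ] ℝ), -l g) - z' := by rw [← hvz]; abel
        have hxx := hx
        rw [hl] at hxx
        have h3 : l x = l g := le_antisymm (hgg.2 x hxx.1) (hxx.2 g hgg.1)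
        rw [h2]
        show ((l : E →ₗ[ℝ] ℝ) - z'.1) x + (-l g - z'.2) = 0
        rw [LinearMap.sub_apply]
        have h4 : (l : E →ₗ[ℝ] ℝ) x = l g := h3
        rw [h4]
        linarith
      · intro F _ hv0
        rw [hv0, zero_add] at hvz
        rw [hvz] at hz'
        have h5 := hz' z hz
        have h6 : l z + -l g = 0 := h5
        apply hlz
        linarith
    · push Not at hex
      exact ⟨0, Q.zero_mem, Submodule.zero_mem _, fun F hF => absurd hF (hex F)⟩
  choose u huQ huZ hune using huex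
  -- coordinates
  have hfree : Module.Free ℝ Q := Module.Free.of_divisionRing ℝ Q
  let e : Q ≃ₗ[ℝ] (Fin (k + 1 + 1) → ℝ) := LinearEquiv.ofFinrankEq _ _ (by rw [hQ]; simp)
  set x : J → (Fin (k + 1 + 1) → ℝ) := fun F => e ⟨q F, hqQ F⟩ with hx
  set uc : L → (Fin (k + 1 + 1) → ℝ) := fun G => e ⟨u G, huQ G⟩ with huc
  set a : L → (Fin (k + 1 + 1) → ℝ) := fun G => if h : ∃ F : J, Gs G ⊆ Fs F then x h.choose else 0 with ha
  set w : L → ℝ := fun G => if ∃ F, Gs G ⊆ Fs F then ((μHE[k] : Measure E) (Gs G)).toReal else 0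
    with hw
  have hw0 : ∀ G, 0 ≤ w G := fun G => by
    simp only [hw]
    split_ifs
    · exact ENNReal.toReal_nonneg
    · exact le_rfl
  have hww : ∀ G F, Gs G ⊆ Fs F → w G = ((μHE[k] : Measure E) (Gs G)).toReal := fun G F h => by
    simp only [hw]
    exact if_pos ⟨F, h⟩
  have hWJ := WJ.weighted_joints (n := k + 1 + 1) (by omega) x a uc (fun F G => Gs G ⊆ Fs F)
    (by
      intro F G hFG
      have hex : ∃ F : J, Gs G ⊆ Fs F := ⟨F, hFG⟩
      have haG : a G = x hex.choose := by simp only [ha]; rw [dif_pos hex]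
      have hF1 := hex.choose_spec
      set F1 := hex.choose with hF1def
      obtain ⟨t, ht⟩ := prop_of_vanish P (Fs F) (Gs G) k (hFprop F).2.1.subset (hFprop F).2.2
        (hGprop G).2.1 (hGprop G).1 (hGprop G).2.2 hFG Q (hQZ F) (q F - q F1) (u G)
        (Q.sub_mem (hqQ F) (hqQ F1)) (huQ G) (by
          intro y hy
          have h1 := hqZ F y (hFG hy)
          have h2 := hqZ F1 y (hF1 hy)
          simp only [Prod.fst_sub, Prod.snd_sub, LinearMap.sub_apply] at h1 h2 ⊢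
          linarith) (huZ G) (hune G F hFG)
      refine ⟨t, ?_⟩
      have h3 : (⟨q F, hqQ F⟩ : Q) = ⟨q F1, hqQ F1⟩ + t • ⟨u G, huQ G⟩ := by
        apply Subtype.ext
        simp only [Submodule.coe_add, Submodule.coe_smul]
        rw [← ht]; abel
      intro i
      have h4 : x F = x F1 + t • uc G := by
        simp only [hx, huc]
        rw [h3, map_add, map_smul]
      rw [h4, haG]
      rfl)
    (by
      intro F F' G _ _ h
      apply hqne
      have h1 : (⟨q F, hqQ F⟩ : Q) = ⟨q F', hqQ F'⟩ := e.injective h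
      exact congrArg Subtype.val h1)
    w hw0
  -- facet inequality for each face
  have hface : ∀ F : J, (((μHE[k + 1] : Measure E) (Fs F)).toReal) ^ (((k + 1 : ℕ) : ℝ) - ((k + 1 : ℕ) : ℝ)⁻¹) /
        ((k + 1 : ℕ) : ℝ) ^ (k + 1 + 1) ≤ WJ.tw uc (fun F G => Gs G ⊆ Fs F) w F := by
    intro F
    have h1 := FaceIneq.face_ineq S k (Fs F) (hFprop F).1 (hFprop F).2.1 (hFprop F).2.2 Gs hGinj
      hGall u (fun G _ => huZ G) (by
        intro G hG
        by_contra hcon
        push Not at hcon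
        have h2 : u G ∈ Q ⊓ Zs (Fs F) := ⟨huQ G, hcon⟩
        rw [hQZ F] at h2
        exact hune G F hG ((Submodule.mem_bot ℝ).mp h2))
    refine h1.trans ?_
    unfold WJ.tw
    rw [Finset.sum_filter, Finset.sum_filter]
    apply Finset.sum_le_sum
    intro τ _
    by_cases hLI : LinearIndependent ℝ (fun i => u (τ i))
    · rw [if_pos hLI]
      by_cases hinc : ∀ i, Gs (τ i) ⊆ Fs F
      · have hgood : WJ.good uc (fun F G => Gs G ⊆ Fs F) F τ := by
          refine ⟨hinc, ?_⟩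
          apply LinearIndependent.of_comp (Q.subtype ∘ₗ e.symm.toLinearMap)
          have : ((Q.subtype ∘ₗ e.symm.toLinearMap) ∘ fun i => uc (τ i)) = fun i => u (τ i) := by
            funext i
            simp [huc]
          rw [this]
          exact hLI
        rw [if_pos hgood]
        apply le_of_eq
        apply Finset.prod_congr rfl
        intro i _
        rw [if_pos (hinc i), hww _ F (hinc i)]
      · push Not at hinc
        obtain ⟨i, hi⟩ := hinc
        have h0 : ∏ i, (if Gs (τ i) ⊆ Fs F then ((μHE[k] : Measure E) (Gs (τ i))).toReal else 0) = 0 := by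
          apply Finset.prod_eq_zero (Finset.mem_univ i)
          rw [if_neg hi]
        rw [h0]
        split_ifs
        · exact Finset.prod_nonneg (fun i _ => hw0 _)
        · exact le_rfl
    · rw [if_neg hLI]
      split_ifs
      · exact Finset.prod_nonneg (fun i _ => hw0 _)
      · exact le_rfl
  exact numeric k hk _ _ (fun F => ENNReal.toReal_nonneg) hface _
    (mul_nonneg (by positivity) (Finset.sum_nonneg (fun G _ => hw0 G))) hWJ

/-- the sum of the `k`-dimensional volumes of the members of a family of sets -/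
def content {d : ℕ} (k : ℕ) (𝓖 : Set (Set (EuclideanSpace ℝ (Fin d)))) : ENNReal :=
  ∑' G : 𝓖, (μHE[k] : Measure (EuclideanSpace ℝ (Fin d))) G.1

/-- the `k`-dimensional faces of `P` which are contained in a member of `𝓕` -/
def below {d : ℕ} (P : Set (EuclideanSpace ℝ (Fin d))) (k : ℕ)
    (𝓕 : Set (Set (EuclideanSpace ℝ (Fin d)))) : Set (Set (EuclideanSpace ℝ (Fin d))) :=
  {G | IsFace k P G ∧ ∃ F ∈ 𝓕, G ⊆ F}

lemma content_mono {d : ℕ} (k : ℕ) {𝓖 𝓗 : Set (Set (EuclideanSpace ℝ (Fin d)))} (h : 𝓖 ⊆ 𝓗) :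
    content k 𝓖 ≤ content k 𝓗 := by
  unfold content
  exact ENNReal.tsum_mono_subtype (fun G => (μHE[k] : Measure (EuclideanSpace ℝ (Fin d))) G) h

lemma content_faces {d : ℕ} (k : ℕ) (P : Set (EuclideanSpace ℝ (Fin d))) :
    content k {F | IsFace k P F} = faceContent k P := rfl

lemma content_lt_top {d : ℕ} (P : Set (EuclideanSpace ℝ (Fin d))) (hP : IsPolytope d P)
    (k : ℕ) {𝓖 : Set (Set (EuclideanSpace ℝ (Fin d)))} (h : ∀ G ∈ 𝓖, IsFace k P G) :
    content k 𝓖 < ⊤ :=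
  (content_mono k (show 𝓖 ⊆ {F | IsFace k P F} from h)).trans_lt
    (Chain.faceContent_lt_top P hP k)

/-- one step -/
lemma step {d : ℕ} (P : Set (EuclideanSpace ℝ (Fin d))) (hP : IsPolytope d P)
    (k : ℕ) (hk : 1 ≤ k) (𝓕 : Set (Set (EuclideanSpace ℝ (Fin d))))
    (h𝓕 : ∀ F ∈ 𝓕, IsFace (k + 1) P F) :
    content (k + 1) 𝓕 ^ ((1 : ℝ) / ((k + 1 : ℕ) : ℝ)) ≤
      Chain.stepC k * content k (below P k 𝓕) ^ ((1 : ℝ) / (k : ℝ)) := by
  classical
  have hkpos : (0 : ℝ) < k := by exact_mod_cast hk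
  have hfin1' := Chain.finite_faces P hP (k + 1)
  have hfin1 : Finite 𝓕 := by
    refine Finite.of_injective (fun F : 𝓕 =>
      (⟨F.1, h𝓕 F.1 F.2⟩ : {F : Set (EuclideanSpace ℝ (Fin d)) // IsFace (k + 1) P F})) ?_
    intro F F' h
    exact Subtype.ext (congrArg (fun z => z.1) h)
  have hfin0 := Chain.finite_faces P hP k
  have hft1 : Fintype 𝓕 := Fintype.ofFinite 𝓕
  have hft0 := Fintype.ofFinite {F : Set (EuclideanSpace ℝ (Fin d)) // IsFace k P F}
  rw [one_div, one_div]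
  rcases isEmpty_or_nonempty 𝓕 with he | hne
  · have h0 : content (k + 1) 𝓕 = 0 := by
      unfold content
      rw [tsum_empty]
    rw [h0, ENNReal.zero_rpow_of_pos (by positivity)]
    exact bot_le
  obtain ⟨S, hS⟩ := hP.1
  have hmain := main_real S k hk
    (fun F : 𝓕 => F.1)
    (fun F : {F : Set (EuclideanSpace ℝ (Fin d)) // IsFace k P F} => F.1)
    Subtype.val_injective Subtype.val_injective
    (by
      intro F
      rw [← hS]
      exact h𝓕 F.1 F.2)
    (by
      intro F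
      rw [← hS]
      exact ⟨fun h => ⟨⟨F, h⟩, rfl⟩, fun ⟨F', hF'⟩ => hF' ▸ F'.2⟩)
  have hA1 : (∑ F : 𝓕, ((μHE[k + 1] : Measure (EuclideanSpace ℝ (Fin d))) F.1).toReal) =
      (content (k + 1) 𝓕).toReal := by
    unfold content
    rw [tsum_fintype, ENNReal.toReal_sum]
    intro F _
    exact (Chain.face_lt_top P hP (k + 1) F.1 (h𝓕 F.1 F.2)).ne
  have hB0 : content k (below P k 𝓕) = ∑' G : {F : Set (EuclideanSpace ℝ (Fin d)) // IsFace k P F},
      if ∃ F : 𝓕, G.1 ⊆ F.1 then (μHE[k] : Measure (EuclideanSpace ℝ (Fin d))) G.1 else 0 := by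
    unfold content
    have e1 := tsum_subtype (below P k 𝓕)
      (fun G => (μHE[k] : Measure (EuclideanSpace ℝ (Fin d))) G)
    have e2 := tsum_subtype {F : Set (EuclideanSpace ℝ (Fin d)) | IsFace k P F}
      (fun G => if ∃ F : 𝓕, G ⊆ F.1 then (μHE[k] : Measure (EuclideanSpace ℝ (Fin d))) G else 0)
    refine e1.trans (Eq.trans ?_ e2.symm)
    refine tsum_congr fun G => ?_
    by_cases h1 : IsFace k P G
    · by_cases h2 : ∃ F ∈ 𝓕, G ⊆ F
      · rw [Set.indicator_of_mem (show G ∈ below P k 𝓕 from ⟨h1, h2⟩),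
          Set.indicator_of_mem (show G ∈ {F | IsFace k P F} from h1), if_pos]
        obtain ⟨F, hF, hGF⟩ := h2
        exact ⟨⟨F, hF⟩, hGF⟩
      · rw [Set.indicator_of_notMem (show G ∉ below P k 𝓕 from fun h => h2 h.2),
          Set.indicator_of_mem (show G ∈ {F | IsFace k P F} from h1), if_neg]
        rintro ⟨F, hF⟩
        exact h2 ⟨F.1, F.2, hF⟩
    · rw [Set.indicator_of_notMem (show G ∉ below P k 𝓕 from fun h => h1 h.1),
        Set.indicator_of_notMem (show G ∉ {F | IsFace k P F} from h1)]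
  have hB1 : (∑ G : {F : Set (EuclideanSpace ℝ (Fin d)) // IsFace k P F},
      if ∃ F : 𝓕, G.1 ⊆ F.1 then ((μHE[k] : Measure (EuclideanSpace ℝ (Fin d))) G.1).toReal
        else 0) = (content k (below P k 𝓕)).toReal := by
    rw [hB0, tsum_fintype, ENNReal.toReal_sum]
    · refine Finset.sum_congr rfl fun G _ => ?_
      split_ifs
      · rfl
      · rfl
    · intro G _
      split_ifs
      · exact (Chain.face_lt_top P hP k G.1 G.2).ne
      · exact ENNReal.zero_ne_top
  have hmain' : (content (k + 1) 𝓕).toReal ^ (((k + 1 : ℕ) : ℝ)⁻¹) ≤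
      (((k + 1 : ℕ) : ℝ) * (2 * ((k + 1 + 1 : ℕ) : ℝ) ^ 2 *
        (content k (below P k 𝓕)).toReal)) ^ ((k : ℝ)⁻¹) := by
    rw [← hA1, ← hB1]
    convert hmain using 4
  have hA := (content_lt_top P hP (k + 1) h𝓕).ne
  have hB := (content_lt_top P hP k (𝓖 := below P k 𝓕) fun G hG => hG.1).ne
  set A := content (k + 1) 𝓕 with hAdef
  set B := content k (below P k 𝓕) with hBdef
  have h1 : A ^ (((k + 1 : ℕ) : ℝ)⁻¹) = ENNReal.ofReal (A.toReal ^ (((k + 1 : ℕ) : ℝ)⁻¹)) := by
    rw [← ENNReal.ofReal_rpow_of_nonneg ENNReal.toReal_nonneg (by positivity), ENNReal.ofReal_toReal hA]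
  rw [h1]
  refine (ENNReal.ofReal_le_ofReal hmain').trans ?_
  rw [← ENNReal.ofReal_rpow_of_nonneg (by positivity) (by positivity)]
  have h2 : ((k + 1 : ℕ) : ℝ) * (2 * ((k + 1 + 1 : ℕ) : ℝ) ^ 2 * B.toReal) =
      (((k + 1 : ℕ) : ℝ) * (2 * ((k + 1 + 1 : ℕ) : ℝ) ^ 2)) * B.toReal := by ring
  rw [h2, ENNReal.ofReal_mul (by positivity), ENNReal.ofReal_toReal hB,
    ENNReal.mul_rpow_of_nonneg _ _ (by positivity)]
  exact le_of_eq rfl

/-- the chain of inequalities -/
lemma chain {d : ℕ} (P : Set (EuclideanSpace ℝ (Fin d))) (hP : IsPolytope d P)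
    (j : ℕ) (hj : 1 ≤ j) (t : ℕ) : ∀ (𝓕 : Set (Set (EuclideanSpace ℝ (Fin d)))),
    (∀ F ∈ 𝓕, IsFace (j + t) P F) →
    content (j + t) 𝓕 ^ ((1 : ℝ) / ((j + t : ℕ) : ℝ)) ≤
      Chain.chainC j t * content j (below P j 𝓕) ^ ((1 : ℝ) / (j : ℝ)) := by
  induction t with
  | zero =>
    intro 𝓕 h𝓕
    simp only [Chain.chainC, one_mul, add_zero]
    refine ENNReal.rpow_le_rpow (content_mono j fun F hF => ⟨?_, F, hF, subset_rfl⟩) (by positivity)
    exact h𝓕 F hF
  | succ t ih =>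
    intro 𝓕 h𝓕
    have h1 := step P hP (j + t) (by omega) 𝓕 h𝓕
    have h2 := ih (below P (j + t) 𝓕) fun F hF => hF.1
    have h3 : content j (below P j (below P (j + t) 𝓕)) ≤ content j (below P j 𝓕) := by
      refine content_mono j ?_
      rintro G ⟨hG, F, ⟨-, F', hF', hFF'⟩, hGF⟩
      exact ⟨hG, F', hF', hGF.trans hFF'⟩
    have e2 : j + (t + 1) = j + t + 1 := by ring
    rw [e2]
    refine h1.trans ?_
    show _ ≤ Chain.stepC (j + t) * Chain.chainC j t * _
    rw [mul_assoc]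
    refine mul_le_mul_right ((h2.trans ?_)) _
    exact mul_le_mul_right (ENNReal.rpow_le_rpow h3 (by positivity)) _

end

end Pool.Agent.Y949.FC
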